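import Pool.Agent.Lib.MP_4da166_co.Upper
import Pool.Agent.Lib.MP_4da166_co.Lower

/-!
# The Berge extremal function of `1₁ × C₄`: order of magnitude and extremal constant

`Bh(m, 1₁ × C₄) = Θ(m^{5/2})`, with the exact constant: `limsup Bh(m, 1₁ × C₄) / m^{5/2} = 5/24`.
-/

set_option autoImplicit false

namespace Pool.Agent.Results.MP_4da166_co.SharpConstant

open Finset Asymptotics Filter Pool.Agent.Lib.MP_4da166_co

theorem rpow_sq (m : ℕ) : ((m : ℝ) ^ (5 / 2 : ℝ)) ^ 2 = (m : ℝ) ^ 5 := by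
  rw [← Real.rpow_natCast, ← Real.rpow_mul (Nat.cast_nonneg m), ← Real.rpow_natCast]
  norm_num

theorem pow4_half (e : ℕ) : (((4 ^ e : ℕ) : ℝ)) ^ (1 / 2 : ℝ) = 2 ^ e := by
  rw [← Real.sqrt_eq_rpow]
  have : (((4 ^ e : ℕ) : ℝ)) = (2 ^ e : ℝ) ^ 2 := by
    push_cast
    rw [← pow_mul, mul_comm, pow_mul]
    norm_num
  rw [this]
  exact Real.sqrt_sq (by positivity)

theorem pow4_pos (e : ℕ) : (0 : ℝ) < ((4 ^ e : ℕ) : ℝ) := by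
  exact_mod_cast Nat.pos_of_ne_zero (by positivity)

theorem pow4_three (e : ℕ) :
    (((4 ^ e : ℕ) : ℝ)) ^ (3 / 2 : ℝ) = ((4 ^ e : ℕ) : ℝ) * 2 ^ e := by
  rw [← pow4_half, show (3 / 2 : ℝ) = 1 + 1 / 2 by norm_num, Real.rpow_add (pow4_pos e),
    Real.rpow_one]

theorem pow4_five (e : ℕ) :
    (((4 ^ e : ℕ) : ℝ)) ^ (5 / 2 : ℝ) = ((4 ^ e : ℕ) : ℝ) ^ 2 * 2 ^ e := by
  rw [← pow4_half, show (5 / 2 : ℝ) = 2 + 1 / 2 by norm_num, Real.rpow_add (pow4_pos e)]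
  norm_num

/-- the real form of the lower bound -/
theorem lower_gen {m e : ℕ} (h : 4 ^ e ≤ m) :
    5 / 24 * (((4 ^ e : ℕ) : ℝ) ^ (5 / 2 : ℝ) - ((4 ^ e : ℕ) : ℝ) ^ (3 / 2 : ℝ)) ≤
      (Bh m F : ℝ) := by
  have h1 := lower_sharp h
  have h2 : (5 : ℝ) * (((4 ^ e : ℕ) : ℝ) * ((((4 ^ e - 1 : ℕ)) : ℝ) * 2 ^ e)) ≤
      24 * (Bh m F : ℝ) := by exact_mod_cast h1
  rw [Nat.cast_sub (Nat.one_le_iff_ne_zero.2 (by positivity)), Nat.cast_one] at h2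
  rw [pow4_three, pow4_five]
  nlinarith

theorem lower_real (m : ℕ) (hm : 4 ≤ m) :
    (5 / 1024 : ℝ) * (m : ℝ) ^ (5 / 2 : ℝ) ≤ (Bh m F : ℝ) := by
  obtain ⟨e, he⟩ : ∃ e, e = Nat.log 4 m := ⟨_, rfl⟩
  have h1 : 4 ^ e ≤ m := by rw [he]; exact Nat.pow_log_le_self 4 (by omega)
  have h2 : m < 4 ^ (e + 1) := by rw [he]; exact Nat.lt_pow_succ_log_self (by norm_num) m
  have he1 : 1 ≤ e := by
    rw [he]
    exact (Nat.le_log_iff_pow_le (by norm_num) (by omega)).2 (by simpa using hm)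
  have h3 := lower_gen h1
  have h4 : ((m : ℝ)) ^ (5 / 2 : ℝ) ≤ 32 * ((4 ^ e : ℕ) : ℝ) ^ (5 / 2 : ℝ) := by
    have h5 : (m : ℝ) ≤ ((4 ^ (e + 1) : ℕ) : ℝ) := by exact_mod_cast h2.le
    calc ((m : ℝ)) ^ (5 / 2 : ℝ) ≤ (((4 ^ (e + 1) : ℕ) : ℝ)) ^ (5 / 2 : ℝ) :=
          Real.rpow_le_rpow (Nat.cast_nonneg m) h5 (by norm_num)
      _ = 32 * ((4 ^ e : ℕ) : ℝ) ^ (5 / 2 : ℝ) := by
          rw [pow4_five, pow4_five]
          push_cast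
          ring
  have h6 : ((4 ^ e : ℕ) : ℝ) ^ (3 / 2 : ℝ) * 4 ≤ ((4 ^ e : ℕ) : ℝ) ^ (5 / 2 : ℝ) := by
    rw [pow4_five, pow4_three]
    have h7 : (4 : ℝ) ≤ ((4 ^ e : ℕ) : ℝ) := by
      have : 4 ^ 1 ≤ 4 ^ e := Nat.pow_le_pow_right (by norm_num) he1
      exact_mod_cast this
    have h8 : (0 : ℝ) < ((4 ^ e : ℕ) : ℝ) * 2 ^ e := by
      have := pow4_pos e
      positivity
    nlinarith
  have h9 : (0 : ℝ) ≤ ((4 ^ e : ℕ) : ℝ) ^ (5 / 2 : ℝ) := Real.rpow_nonneg (Nat.cast_nonneg _) _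
  nlinarith

theorem upper_real (m : ℕ) (hm : 1 ≤ m) : (Bh m F : ℝ) ≤ 4 * (m : ℝ) ^ (5 / 2 : ℝ) := by
  have h := upper_sharp m
  have hm' : (1 : ℝ) ≤ m := by exact_mod_cast hm
  have hm2 : (m : ℝ) ^ 2 ≤ (m : ℝ) ^ (5 / 2 : ℝ) := by
    rw [← Real.rpow_natCast]
    apply Real.rpow_le_rpow_of_exponent_le hm'
    norm_num
  have h1 : (1 : ℝ) ≤ (m : ℝ) ^ (5 / 2 : ℝ) := Real.one_le_rpow hm' (by norm_num)
  linarith

theorem isTheta : (fun m : ℕ => (Bh m F : ℝ)) =Θ[atTop] fun m : ℕ => (m : ℝ) ^ (5 / 2 : ℝ) := by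
  constructor
  · apply IsBigO.of_bound 4
    filter_upwards [eventually_ge_atTop 1] with m hm
    rw [Real.norm_of_nonneg (Nat.cast_nonneg _),
      Real.norm_of_nonneg (Real.rpow_nonneg (Nat.cast_nonneg m) _)]
    exact upper_real m hm
  · apply IsBigO.of_bound (1024 / 5)
    filter_upwards [eventually_ge_atTop 4] with m hm
    rw [Real.norm_of_nonneg (Nat.cast_nonneg _),
      Real.norm_of_nonneg (Real.rpow_nonneg (Nat.cast_nonneg m) _)]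
    have := lower_real m hm
    linarith

theorem not_isTheta_sq :
    ¬ ((fun m : ℕ => (Bh m F : ℝ)) =Θ[atTop] fun m : ℕ => (m : ℝ) ^ 2) := by
  intro h
  have h1 : (fun m : ℕ => (m : ℝ) ^ (5 / 2 : ℝ)) =O[atTop] fun m : ℕ => (m : ℝ) ^ 2 :=
    (isTheta.symm.trans h).1
  obtain ⟨c, hc⟩ := h1.bound
  have h2 : Tendsto (fun m : ℕ => (m : ℝ) ^ (1 / 2 : ℝ)) atTop atTop :=
    (tendsto_rpow_atTop (by norm_num)).comp tendsto_natCast_atTop_atTop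
  obtain ⟨m, hm1, hm2, hm3⟩ :=
    (hc.and ((eventually_ge_atTop 1).and (h2.eventually_gt_atTop c))).exists
  have hm0 : (0 : ℝ) < m := by exact_mod_cast hm2
  rw [Real.norm_of_nonneg (Real.rpow_nonneg hm0.le _), Real.norm_of_nonneg (by positivity)] at hm1
  have h3 : (m : ℝ) ^ (5 / 2 : ℝ) = (m : ℝ) ^ (1 / 2 : ℝ) * (m : ℝ) ^ 2 := by
    rw [← Real.rpow_natCast, ← Real.rpow_add hm0]; norm_num
  rw [h3] at hm1
  have h4 : (0 : ℝ) < (m : ℝ) ^ 2 := by positivity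
  have := le_of_mul_le_mul_right hm1 h4
  linarith

theorem limsup_eq :
    limsup (fun m : ℕ => (Bh m F : ℝ) / (m : ℝ) ^ (5 / 2 : ℝ)) atTop = 5 / 24 := by
  -- the upper comparison function
  have hg : Tendsto (fun m : ℕ => (5 / 24 : ℝ) + ((m : ℝ) ^ (-(1 / 2) : ℝ) +
      2 * (m : ℝ) ^ (-(5 / 2) : ℝ))) atTop (nhds (5 / 24 + (0 + 2 * 0))) := by
    have t1 : Tendsto (fun m : ℕ => (m : ℝ) ^ (-(1 / 2) : ℝ)) atTop (nhds 0) :=
      (tendsto_rpow_neg_atTop (by norm_num)).comp tendsto_natCast_atTop_atTop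
    have t2 : Tendsto (fun m : ℕ => (m : ℝ) ^ (-(5 / 2) : ℝ)) atTop (nhds 0) :=
      (tendsto_rpow_neg_atTop (by norm_num)).comp tendsto_natCast_atTop_atTop
    exact tendsto_const_nhds.add (t1.add (t2.const_mul 2))
  rw [show (5 / 24 : ℝ) + (0 + 2 * 0) = 5 / 24 by norm_num] at hg
  have hfg : ∀ᶠ m : ℕ in atTop, (Bh m F : ℝ) / (m : ℝ) ^ (5 / 2 : ℝ) ≤
      (5 / 24 : ℝ) + ((m : ℝ) ^ (-(1 / 2) : ℝ) + 2 * (m : ℝ) ^ (-(5 / 2) : ℝ)) := by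
    filter_upwards [eventually_ge_atTop 1] with m hm
    have hm0 : (0 : ℝ) < m := by exact_mod_cast hm
    have hp : (0 : ℝ) < (m : ℝ) ^ (5 / 2 : ℝ) := Real.rpow_pos_of_pos hm0 _
    rw [div_le_iff₀ hp, add_mul, add_mul, mul_assoc, ← Real.rpow_add hm0, ← Real.rpow_add hm0]
    have h := upper_sharp m
    have e1 : (m : ℝ) ^ (-(1 / 2) + 5 / 2 : ℝ) = (m : ℝ) ^ 2 := by
      rw [← Real.rpow_natCast]; norm_num
    have e2 : (m : ℝ) ^ (-(5 / 2) + 5 / 2 : ℝ) = 1 := by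
      rw [show (-(5 / 2) + 5 / 2 : ℝ) = 0 by norm_num, Real.rpow_zero]
    rw [e1, e2]
    linarith
  have hnn : ∀ m : ℕ, (0 : ℝ) ≤ (Bh m F : ℝ) / (m : ℝ) ^ (5 / 2 : ℝ) := fun m =>
    div_nonneg (Nat.cast_nonneg _) (Real.rpow_nonneg (Nat.cast_nonneg m) _)
  have hcob : IsCoboundedUnder (· ≤ ·) atTop
      (fun m : ℕ => (Bh m F : ℝ) / (m : ℝ) ^ (5 / 2 : ℝ)) :=
    isCoboundedUnder_le_of_le atTop hnn
  have hbdd : IsBoundedUnder (· ≤ ·) atTop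
      (fun m : ℕ => (Bh m F : ℝ) / (m : ℝ) ^ (5 / 2 : ℝ)) :=
    hg.isBoundedUnder_le.mono_le hfg
  apply le_antisymm
  · rw [← hg.limsup_eq]
    exact limsup_le_limsup hfg hcob hg.isBoundedUnder_le
  · apply le_of_forall_lt
    intro c hc
    obtain ⟨c', hc1, hc2⟩ := exists_between hc
    refine lt_of_lt_of_le hc1 ?_
    apply le_limsup_of_frequently_le _ hbdd
    rw [frequently_atTop]
    intro N
    -- choose a large power of four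
    have t : Tendsto (fun e : ℕ => (5 / 24 : ℝ) * (1 - (1 / 4) ^ e)) atTop
        (nhds (5 / 24 * (1 - 0))) :=
      (tendsto_const_nhds.sub (tendsto_pow_atTop_nhds_zero_of_lt_one (by norm_num)
        (by norm_num))).const_mul _
    rw [sub_zero, mul_one] at t
    obtain ⟨e, he1, he2⟩ := ((t.eventually (lt_mem_nhds hc2)).and (eventually_ge_atTop N)).exists
    refine ⟨4 ^ e, ?_, ?_⟩
    · exact he2.trans (Nat.lt_pow_self (by norm_num)).le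
    · have h1 := lower_gen (le_refl (4 ^ e))
      have hp : (0 : ℝ) < ((4 ^ e : ℕ) : ℝ) ^ (5 / 2 : ℝ) := Real.rpow_pos_of_pos (pow4_pos e) _
      rw [le_div_iff₀ hp]
      refine le_trans ?_ h1
      have h2 : ((4 ^ e : ℕ) : ℝ) ^ (3 / 2 : ℝ) = (1 / 4) ^ e * ((4 ^ e : ℕ) : ℝ) ^ (5 / 2 : ℝ) := by
        rw [pow4_five, pow4_three]
        push_cast
        have h3 : ((1 / 4 : ℝ)) ^ e * 4 ^ e = 1 := by
          rw [← mul_pow]; norm_num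
        calc (4 : ℝ) ^ e * 2 ^ e = ((1 / 4 : ℝ) ^ e * 4 ^ e) * (4 ^ e * 2 ^ e) := by
              rw [h3, one_mul]
          _ = _ := by ring
      rw [h2]
      nlinarith

/-- `Bh(m, 1₁ × C₄)` is of order `m^{5/2}`, and the extremal constant is `5/24`. -/
theorem result :
    (∀ m : ℕ, (Bh m F : ℝ) ≤ 5 / 24 * (m : ℝ) ^ (5 / 2 : ℝ) + (m : ℝ) ^ 2 + 2) ∧
    (∀ e : ℕ, 5 / 24 * (((4 ^ e : ℕ) : ℝ) ^ (5 / 2 : ℝ) - ((4 ^ e : ℕ) : ℝ) ^ (3 / 2 : ℝ)) ≤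
      (Bh (4 ^ e) F : ℝ)) ∧
    limsup (fun m : ℕ => (Bh m F : ℝ) / (m : ℝ) ^ (5 / 2 : ℝ)) atTop = 5 / 24 ∧
    ((fun m : ℕ => (Bh m F : ℝ)) =Θ[atTop] fun m : ℕ => (m : ℝ) ^ (5 / 2 : ℝ)) ∧
    ¬ ((fun m : ℕ => (Bh m F : ℝ)) =Θ[atTop] fun m : ℕ => (m : ℝ) ^ 2) :=
  ⟨upper_sharp, fun _ => lower_gen le_rfl, limsup_eq, isTheta, not_isTheta_sq⟩

end Pool.Agent.Results.MP_4da166_co.SharpConstant
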